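import Pool.Agent.Q269.GR.StE

/-!
# Project GR of helper269, job GR-SMD (by helper149)
-/

set_option autoImplicit false
set_option linter.all false

open scoped Classical
open Finset Polynomial

namespace Pool.Agent.Q149.GR

open Pool.Agent.Q269.GR

/-- the order of `2` modulo an odd number greater than one -/
theorem ord_two {r : ℕ} (hr : Odd r) (h1 : 1 < r) :
    4 ≤ 2 ^ orderOf (2 : ZMod r) ∧ (¬ Un r → 8 ≤ 2 ^ orderOf (2 : ZMod r)) := by
  set f := orderOf (2 : ZMod r) with hf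
  have h3 : 3 ≤ r := by
    obtain ⟨m, rfl⟩ := hr
    omega
  have : NeZero r := ⟨by omega⟩
  have : Fact (1 < r) := ⟨h1⟩
  have hu : IsUnit (2 : ZMod r) := by
    have := (ZMod.isUnit_iff_coprime 2 r).2 (Nat.coprime_two_left.2 hr)
    exact_mod_cast this
  have hpos : 0 < f := by
    rw [hf]
    exact orderOf_pos_iff.2 (isOfFinOrder_iff_pow_eq_one.2 (by
      obtain ⟨u, hu⟩ := hu
      refine ⟨orderOf u, orderOf_pos u, ?_⟩
      rw [← hu, ← Units.val_pow_eq_pow_val, pow_orderOf_eq_one, Units.val_one]))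
  have hpow : (2 : ZMod r) ^ f = 1 := pow_orderOf_eq_one _
  have hdvd : r ∣ 2 ^ f - 1 := by
    have h2 : ((2 ^ f - 1 : ℕ) : ZMod r) = 0 := by
      rw [Nat.cast_sub Nat.one_le_two_pow]
      push_cast
      rw [hpow, sub_self]
    exact (ZMod.natCast_eq_zero_iff _ _).1 h2
  have hge : r ≤ 2 ^ f - 1 := Nat.le_of_dvd (by
    have : 2 ≤ 2 ^ f := by
      calc 2 = 2 ^ 1 := rfl
        _ ≤ 2 ^ f := Nat.pow_le_pow_right (by norm_num) hpos
    omega) hdvd
  refine ⟨by omega, fun hU => ?_⟩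
  by_contra hcon
  push Not at hcon
  have hf3 : f < 3 := by
    by_contra h
    have : 2 ^ 3 ≤ 2 ^ f := Nat.pow_le_pow_right (by norm_num) (by omega)
    omega
  have hf2 : f = 2 := by
    interval_cases f
    · norm_num at hge
      omega
    · rfl
  rw [hf2] at hge
  have : r = 3 := by omega
  exact hU ⟨1, by rw [this]; norm_num⟩

theorem dl_facts {r : ℕ} (hr : Odd r) (h1 : 1 < r) :
    0 ≤ dl r ∧ dl r < 1 ∧ dl r ≤ 2 * (2 : ℝ) ^ (-((1 / 2 : ℝ) * (orderOf (2 : ZMod r) : ℝ))) := by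
  obtain ⟨h4, h8⟩ := ord_two hr h1
  unfold dl Eb
  set f := orderOf (2 : ZMod r) with hf
  have h4' : (4 : ℝ) ≤ 2 ^ f := by exact_mod_cast h4
  have hf2 : 2 ≤ f := by
    by_contra h
    have : 2 ^ f ≤ 2 ^ 1 := Nat.pow_le_pow_right (by norm_num) (by omega)
    omega
  set s : ℝ := (2 : ℝ) ^ ((1 / 2 : ℝ) * (f : ℝ)) with hs
  have hs0 : 0 < s := Real.rpow_pos_of_pos (by norm_num) _
  have hs2 : s * s = 2 ^ f := by
    rw [hs, ← Real.rpow_add (by norm_num), ← Real.rpow_natCast]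
    congr 1
    ring
  have hsge : 2 ≤ s := by nlinarith
  have hneg : (2 : ℝ) ^ (-((1 / 2 : ℝ) * (f : ℝ))) = 1 / s := by
    rw [Real.rpow_neg (by norm_num)]
    exact (one_div s).symm
  have hd : (0 : ℝ) < 2 ^ f - 1 := by linarith
  rw [hneg]
  by_cases hU : Un r
  · rw [if_pos hU]
    have hhalf : (2 : ℝ) ^ (f / 2) ≤ s := by
      rw [hs, ← Real.rpow_natCast]
      apply Real.rpow_le_rpow_of_exponent_le (by norm_num)
      have h5 : 2 * (f / 2) ≤ f := Nat.mul_div_le f 2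
      have h6 : (2 : ℝ) * ((f / 2 : ℕ) : ℝ) ≤ f := by exact_mod_cast h5
      linarith
    have hp : (0 : ℝ) < 2 ^ (f / 2) := by positivity
    refine ⟨div_nonneg (by linarith) hd.le, ?_, ?_⟩
    · rw [div_lt_one hd]
      nlinarith
    · rw [mul_one_div, div_le_div_iff₀ hd hs0]
      nlinarith
  · rw [if_neg hU]
    have h8' : (8 : ℝ) ≤ 2 ^ f := by exact_mod_cast h8 hU
    refine ⟨div_nonneg (by norm_num) hd.le, ?_, ?_⟩
    · rw [div_lt_one hd]
      linarith
    · rw [mul_one_div, div_le_div_iff₀ hd hs0]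
      nlinarith

/-- **JOB GR-SMD** -/
theorem t_SMD (h : S_ORD) : S_SMD := by
  refine ⟨fun r hr h1 => ⟨(dl_facts hr h1).1, (dl_facts hr h1).2.1⟩, ?_⟩
  refine Summable.of_nonneg_of_le (fun r => ?_) (fun r => ?_) ((h (1 / 2) (by norm_num)).mul_left 2)
  · split_ifs with h1
    · exact (dl_facts h1.1 h1.2).1
    · exact le_rfl
  · by_cases h1 : Odd r ∧ 1 < r
    · rw [if_pos h1, if_pos h1.1]
      exact (dl_facts h1.1 h1.2).2.2
    · rw [if_neg h1]
      split_ifs
      · positivity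
      · simp

end Pool.Agent.Q149.GR
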